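import Mathlib

set_option autoImplicit false

namespace Pool.Agent.Results.MP_0896da_co.OrderOfMagnitude

open Finset

/-- The value `n! / (p_1! ⋯ p_t!)` of the multinomial coefficient of a partition of `n`
(the parts of a `Nat.Partition` are positive). -/
def multinomialValue (n : ℕ) (p : Nat.Partition n) : ℕ :=
  n.factorial / (p.parts.map Nat.factorial).prod

/-- `𝓜_n`: the set of distinct values of the multinomial coefficients with upper entry `n`. -/
def multinomialSet (n : ℕ) : Finset ℕ :=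
  (Finset.univ : Finset (Nat.Partition n)).image (multinomialValue n)

/-- `M(n) = |𝓜_n|`. -/
def M (n : ℕ) : ℕ := (multinomialSet n).card

/-- Sidon sets: `x + y = u + v` with `x, y, u, v` in the set forces `{x, y} = {u, v}`
(equal summands allowed). -/
def IsSidon (S : Finset ℕ) : Prop :=
  ∀ x ∈ S, ∀ y ∈ S, ∀ u ∈ S, ∀ v ∈ S, x + y = u + v → (x = u ∧ y = v) ∨ (x = v ∧ y = u)

open Classical in
/-- `s(n)`: the largest size of a Sidon subset of `𝓜_n`. -/
noncomputable def s (n : ℕ) : ℕ :=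
  ((multinomialSet n).powerset.filter IsSidon).sup Finset.card

/-- the products of factorials of the parts of partitions of `n` -/
def PF (n : ℕ) : Finset ℕ :=
  (Finset.univ : Finset (Nat.Partition n)).image (fun p => (p.parts.map Nat.factorial).prod)

lemma mem_PF {n v : ℕ} : v ∈ PF n ↔
    ∃ m : Multiset ℕ, (∀ i ∈ m, 0 < i) ∧ m.sum = n ∧ (m.map Nat.factorial).prod = v := by
  unfold PF
  simp only [Finset.mem_image, Finset.mem_univ, true_and]
  constructor
  · rintro ⟨p, hp⟩
    exact ⟨p.parts, fun i hi => p.parts_pos hi, p.parts_sum, hp⟩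
  · rintro ⟨m, h1, h2, h3⟩
    exact ⟨⟨m, fun {i} hi => h1 i hi, h2⟩, h3⟩

lemma mul_mem_PF {n v k : ℕ} (hk : 0 < k) (hv : v ∈ PF n) : k.factorial * v ∈ PF (n + k) := by
  rw [mem_PF] at hv ⊢
  obtain ⟨m, h1, h2, h3⟩ := hv
  refine ⟨k ::ₘ m, ?_, ?_, ?_⟩
  · intro i hi
    rcases Multiset.mem_cons.mp hi with rfl | hi
    · exact hk
    · exact h1 i hi
  · rw [Multiset.sum_cons, h2, add_comm]
  · rw [Multiset.map_cons, Multiset.prod_cons, h3]

lemma PF_succ (n : ℕ) : PF n ⊆ PF (n + 1) := by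
  intro v hv
  have := mul_mem_PF (k := 1) one_pos hv
  simpa using this

lemma PF_mono {m n : ℕ} (h : m ≤ n) : PF m ⊆ PF n := by
  induction n, h using Nat.le_induction with
  | base => exact Finset.Subset.refl _
  | succ n _ ih => exact ih.trans (PF_succ n)

lemma PF_dvd {n v : ℕ} (hv : v ∈ PF n) : v ∣ n.factorial := by
  rw [mem_PF] at hv
  obtain ⟨m, -, rfl, rfl⟩ := hv
  induction m using Multiset.induction_on with
  | empty => simp
  | cons a m ih =>
    rw [Multiset.map_cons, Multiset.prod_cons, Multiset.sum_cons]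
    exact (Nat.mul_dvd_mul_left _ ih).trans (Nat.factorial_mul_factorial_dvd_factorial_add _ _)

lemma PF_pos {n v : ℕ} (hv : v ∈ PF n) : 0 < v :=
  Nat.pos_of_dvd_of_pos (PF_dvd hv) (Nat.factorial_pos n)

lemma mem_multinomialSet {n v : ℕ} (hv : v ∈ PF n) : n.factorial / v ∈ multinomialSet n := by
  unfold PF at hv
  simp only [Finset.mem_image, Finset.mem_univ, true_and] at hv
  obtain ⟨p, rfl⟩ := hv
  exact Finset.mem_image_of_mem _ (Finset.mem_univ p)

lemma card_eq (n : ℕ) : M n = (PF n).card := by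
  have : multinomialSet n = (PF n).image (fun v => n.factorial / v) := by
    unfold multinomialSet PF multinomialValue
    rw [Finset.image_image]
    rfl
  rw [M, this, Finset.card_image_of_injOn]
  intro v hv w hw h
  have hv' := PF_dvd hv
  have hw' := PF_dvd hw
  simp only at h
  obtain ⟨a, ha⟩ := hv'
  obtain ⟨b, hb⟩ := hw'
  have hvp := PF_pos hv
  have hwp := PF_pos hw
  have h1 : n.factorial / v = a := by rw [ha]; exact Nat.mul_div_cancel_left a hvp
  have h2 : n.factorial / w = b := by rw [hb]; exact Nat.mul_div_cancel_left b hwp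
  have h3 : a = b := by rw [← h1, ← h2, h]
  have hap : 0 < a := by
    rcases Nat.eq_zero_or_pos a with h0 | h0
    · rw [h0, mul_zero] at ha; exact absurd ha (Nat.factorial_ne_zero n)
    · exact h0
  subst h3
  exact Nat.eq_of_mul_eq_mul_right hap (ha.symm.trans hb)

/-- removing a part -/
lemma exists_part {n v : ℕ} (hv : v ∈ PF (n + 1)) (hv' : v ∉ PF n) :
    ∃ k w, 2 ≤ k ∧ k ≤ n + 1 ∧ w ∈ PF (n + 1 - k) ∧ v = k.factorial * w := by
  rw [mem_PF] at hv
  obtain ⟨m, h1, h2, h3⟩ := hv
  have hm : m ≠ 0 := by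
    rintro rfl
    simp at h2
  obtain ⟨k, hk⟩ := Multiset.exists_mem_of_ne_zero hm
  obtain ⟨m', rfl⟩ := Multiset.exists_cons_of_mem hk
  rw [Multiset.sum_cons] at h2
  rw [Multiset.map_cons, Multiset.prod_cons] at h3
  have hk0 : 0 < k := h1 k hk
  have hw : (m'.map Nat.factorial).prod ∈ PF (n + 1 - k) := by
    rw [mem_PF]
    exact ⟨m', fun i hi => h1 i (Multiset.mem_cons_of_mem hi), by omega, rfl⟩
  refine ⟨k, _, ?_, by omega, hw, h3.symm⟩
  by_contra hlt
  have hk1 : k = 1 := by omega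
  subst hk1
  apply hv'
  rw [← h3]
  simpa using hw

lemma fib_ineq (n : ℕ) : (PF (n + 2)).card ≤ (PF (n + 1)).card + (PF n).card := by
  classical
  have h1 : (PF (n + 2)).card = (PF (n + 2) \ PF (n + 1)).card + (PF (n + 1)).card :=
    (Finset.card_sdiff_add_card_eq_card (PF_succ (n + 1))).symm
  have h2 : (PF (n + 2) \ PF (n + 1)).card ≤ (PF n).card := by
    have hex : ∀ v ∈ PF (n + 2) \ PF (n + 1), ∃ w, ∃ k, 2 ≤ k ∧ k ≤ n + 2 ∧
        w ∈ PF (n + 2 - k) ∧ v = k.factorial * w := by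
      intro v hv
      rw [Finset.mem_sdiff] at hv
      obtain ⟨k, w, h⟩ := exists_part hv.1 hv.2
      exact ⟨w, k, h⟩
    choose! f hf using hex
    refine Finset.card_le_card_of_injOn f ?_ ?_
    · intro v hv
      obtain ⟨k, hk2, hkn, hw, -⟩ := hf v hv
      exact PF_mono (by omega) hw
    · -- injectivity
      have key : ∀ v₁ ∈ PF (n + 2) \ PF (n + 1), ∀ v₂ ∈ PF (n + 2) \ PF (n + 1), ∀ k₁ k₂ w : ℕ,
          2 ≤ k₁ → k₁ ≤ n + 2 → w ∈ PF (n + 2 - k₁) → v₁ = k₁.factorial * w →
          2 ≤ k₂ → k₂ ≤ n + 2 → w ∈ PF (n + 2 - k₂) → v₂ = k₂.factorial * w → ¬ k₁ < k₂ := by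
        intro v₁ hv₁ v₂ hv₂ k₁ k₂ w h1 h2 h3 h4 h5 h6 h7 h8 hlt
        rw [Finset.mem_sdiff] at hv₁
        apply hv₁.2
        rw [h4]
        have : w ∈ PF (n + 1 - k₁) := PF_mono (by omega) h7
        have h9 := mul_mem_PF (k := k₁) (by omega) this
        rwa [show n + 1 - k₁ + k₁ = n + 1 by omega] at h9
      intro v₁ hv₁ v₂ hv₂ h
      obtain ⟨k₁, a1, a2, a3, a4⟩ := hf v₁ hv₁
      obtain ⟨k₂, b1, b2, b3, b4⟩ := hf v₂ hv₂
      have n1 := key v₁ hv₁ v₂ hv₂ k₁ k₂ (f v₁) a1 a2 a3 a4 b1 b2 (by rw [h]; exact b3)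
        (by rw [h]; exact b4)
      have n2 := key v₂ hv₂ v₁ hv₁ k₂ k₁ (f v₂) b1 b2 b3 b4 a1 a2 (by rw [← h]; exact a3)
        (by rw [← h]; exact a4)
      have hk : k₁ = k₂ := by omega
      rw [a4, b4, hk, h]
  omega

lemma step (n : ℕ) : (PF (n + 5)).card ≤ 13 * (PF n).card := by
  have h0 : (PF (n + 1)).card ≤ 2 * (PF n).card := by
    rcases n with _ | n
    · decide
    · have h1 : (PF (n + 1 + 1)).card ≤ (PF (n + 1)).card + (PF n).card := fib_ineq n
      have h := Finset.card_le_card (PF_succ n)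
      omega
  have h1 := fib_ineq n
  have h2 := fib_ineq (n + 1)
  have h3 := fib_ineq (n + 2)
  have h4 := fib_ineq (n + 3)
  simp only [add_assoc] at h1 h2 h3 h4
  norm_num at h1 h2 h3 h4
  omega

/-- every Sidon subset misses a positive proportion -/
lemma sidon_card (n : ℕ) (S : Finset ℕ) (hSid : IsSidon S) :
    (PF n).card ≤ 3 * ((multinomialSet (n + 5)) \ S).card := by
  classical
  set D := (multinomialSet (n + 5)) \ S with hD
  set N := (n + 5).factorial with hN
  have hsub : PF n ⊆ (D.image (fun d => N / (12 * d)) ∪ D.image (fun d => N / (6 * d))) ∪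
      D.image (fun d => N / (4 * d)) := by
    intro c hc
    have hcpos := PF_pos hc
    have m12 : 12 * c ∈ PF (n + 5) := by
      have h1 := mul_mem_PF (k := 2) (by norm_num) hc
      have h2 := mul_mem_PF (k := 3) (by norm_num) h1
      have h3 : Nat.factorial 3 * (Nat.factorial 2 * c) = 12 * c := by
        norm_num [Nat.factorial]; ring
      rwa [h3] at h2
    have m6 : 6 * c ∈ PF (n + 5) := by
      have h1 := mul_mem_PF (k := 1) (by norm_num) hc
      have h2 := mul_mem_PF (k := 1) (by norm_num) h1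
      have h3 := mul_mem_PF (k := 3) (by norm_num) h2
      have h4 : Nat.factorial 3 * (Nat.factorial 1 * (Nat.factorial 1 * c)) = 6 * c := by
        norm_num [Nat.factorial]
      rwa [h4] at h3
    have m4 : 4 * c ∈ PF (n + 5) := by
      have h1 := mul_mem_PF (k := 1) (by norm_num) hc
      have h2 := mul_mem_PF (k := 2) (by norm_num) h1
      have h3 := mul_mem_PF (k := 2) (by norm_num) h2
      have h4 : Nat.factorial 2 * (Nat.factorial 2 * (Nat.factorial 1 * c)) = 4 * c := by
        norm_num [Nat.factorial]; ring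
      rwa [h4] at h3
    obtain ⟨k, hk⟩ := PF_dvd m12
    rw [← hN] at hk
    have hkpos : 0 < k := by
      rcases Nat.eq_zero_or_pos k with h0 | h0
      · rw [h0, mul_zero] at hk; exact absurd hk (Nat.factorial_ne_zero (n + 5))
      · exact h0
    have e1 : k ∈ multinomialSet (n + 5) := by
      have := mem_multinomialSet m12
      rw [← hN, hk, Nat.mul_div_cancel_left k (by omega)] at this
      exact this
    have e2 : 2 * k ∈ multinomialSet (n + 5) := by
      have := mem_multinomialSet m6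
      rw [← hN, hk, show 12 * c * k = 6 * c * (2 * k) by ring,
        Nat.mul_div_cancel_left _ (by omega)] at this
      exact this
    have e3 : 3 * k ∈ multinomialSet (n + 5) := by
      have := mem_multinomialSet m4
      rw [← hN, hk, show 12 * c * k = 4 * c * (3 * k) by ring,
        Nat.mul_div_cancel_left _ (by omega)] at this
      exact this
    have hnot : ¬ (k ∈ S ∧ 2 * k ∈ S ∧ 3 * k ∈ S) := by
      rintro ⟨h1, h2, h3⟩
      have := hSid k h1 (3 * k) h3 (2 * k) h2 (2 * k) h2 (by ring)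
      omega
    simp only [Finset.mem_union, Finset.mem_image]
    by_cases c1 : k ∈ S
    · by_cases c2 : 2 * k ∈ S
      · have c3 : 3 * k ∉ S := fun c3 => hnot ⟨c1, c2, c3⟩
        right
        refine ⟨3 * k, by rw [hD, Finset.mem_sdiff]; exact ⟨e3, c3⟩, ?_⟩
        rw [hk, show 12 * c * k = 4 * (3 * k) * c by ring,
          Nat.mul_div_cancel_left _ (by omega)]
      · left; right
        refine ⟨2 * k, by rw [hD, Finset.mem_sdiff]; exact ⟨e2, c2⟩, ?_⟩
        rw [hk, show 12 * c * k = 6 * (2 * k) * c by ring,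
          Nat.mul_div_cancel_left _ (by omega)]
    · left; left
      refine ⟨k, by rw [hD, Finset.mem_sdiff]; exact ⟨e1, c1⟩, ?_⟩
      rw [hk, show 12 * c * k = 12 * k * c by ring, Nat.mul_div_cancel_left _ (by omega)]
  have h1 := Finset.card_le_card hsub
  have h2 := Finset.card_union_le (D.image (fun d => N / (12 * d)) ∪ D.image (fun d => N / (6 * d)))
    (D.image (fun d => N / (4 * d)))
  have h3 := Finset.card_union_le (D.image (fun d => N / (12 * d)))
    (D.image (fun d => N / (6 * d)))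
  have h4 : (D.image (fun d => N / (12 * d))).card ≤ D.card := Finset.card_image_le
  have h5 : (D.image (fun d => N / (6 * d))).card ≤ D.card := Finset.card_image_le
  have h6 : (D.image (fun d => N / (4 * d))).card ≤ D.card := Finset.card_image_le
  omega

lemma s_le (n : ℕ) : s n ≤ M n := by
  classical
  unfold s M
  apply Finset.sup_le
  intro S hS
  rw [Finset.mem_filter, Finset.mem_powerset] at hS
  exact Finset.card_le_card hS.1

lemma s_bound (n : ℕ) (hn : 5 ≤ n) : 39 * s n ≤ 38 * M n := by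
  classical
  obtain ⟨m, rfl⟩ : ∃ m, n = m + 5 := ⟨n - 5, by omega⟩
  obtain ⟨S, hS, hmax⟩ : ∃ S ∈ (multinomialSet (m + 5)).powerset.filter IsSidon,
      s (m + 5) = S.card := by
    unfold s
    apply Finset.exists_mem_eq_sup
    refine ⟨∅, ?_⟩
    rw [Finset.mem_filter, Finset.mem_powerset]
    exact ⟨Finset.empty_subset _, fun x hx => absurd hx (Finset.notMem_empty x)⟩
  rw [Finset.mem_filter, Finset.mem_powerset] at hS
  have h1 := sidon_card m S hS.2
  have h2 := step m
  have h3 := Finset.card_sdiff_add_card_eq_card hS.1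
  rw [← card_eq] at h2
  rw [hmax]
  unfold M at h2 ⊢
  omega

/-- **Order of magnitude of `M(n) - s(n)`.**  For all `n ≥ 5`,
`M(n) / 39 ≤ M(n) - s(n) ≤ M(n)`; in particular `M(n) - s(n) = Θ(M(n))`. -/
theorem result :
    (∀ n : ℕ, 5 ≤ n →
      (M n : ℝ) / 39 ≤ (M n : ℝ) - (s n : ℝ) ∧ (M n : ℝ) - (s n : ℝ) ≤ (M n : ℝ)) ∧
    (fun n : ℕ => (M n : ℝ) - (s n : ℝ)) =Θ[Filter.atTop] (fun n : ℕ => (M n : ℝ)) := by
  have key : ∀ n : ℕ, 5 ≤ n →
      (M n : ℝ) / 39 ≤ (M n : ℝ) - (s n : ℝ) ∧ (M n : ℝ) - (s n : ℝ) ≤ (M n : ℝ) := by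
    intro n hn
    have h1 : (39 : ℝ) * s n ≤ 38 * M n := by exact_mod_cast s_bound n hn
    have h2 : (0 : ℝ) ≤ s n := Nat.cast_nonneg _
    constructor <;> linarith
  refine ⟨key, ?_, ?_⟩
  · apply Asymptotics.IsBigO.of_bound 1
    filter_upwards [Filter.eventually_ge_atTop 5] with n hn
    obtain ⟨h1, h2⟩ := key n hn
    have h3 : (0 : ℝ) ≤ M n := Nat.cast_nonneg _
    rw [Real.norm_of_nonneg (by linarith), Real.norm_of_nonneg h3]
    linarith
  · apply Asymptotics.IsBigO.of_bound 39
    filter_upwards [Filter.eventually_ge_atTop 5] with n hn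
    obtain ⟨h1, h2⟩ := key n hn
    have h3 : (0 : ℝ) ≤ M n := Nat.cast_nonneg _
    rw [Real.norm_of_nonneg (by linarith : (0 : ℝ) ≤ M n - s n), Real.norm_of_nonneg h3]
    linarith

end Pool.Agent.Results.MP_0896da_co.OrderOfMagnitude
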